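import Mathlib

set_option autoImplicit false
set_option linter.unusedSectionVars false
open Set Metric Filter Topology

namespace Pool.Agent.H230R3

variable {H : Type*} [NormedAddCommGroup H] [InnerProductSpace ℝ H]

/-- The set-valued map `A` is monotone: `⟨u - v, x - y⟩ ≥ 0` whenever `u ∈ A x`, `v ∈ A y`. -/
def IsMonotoneOp (A : H → Set H) : Prop :=
  ∀ x y u v, u ∈ A x → v ∈ A y → 0 ≤ inner ℝ (u - v) (x - y)

/-- `A` is maximally monotone: it is monotone and no monotone set-valued map has a strictly
larger graph. -/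
def IsMaximallyMonotone (A : H → Set H) : Prop :=
  IsMonotoneOp A ∧ ∀ B : H → Set H, IsMonotoneOp B → (∀ x, A x ⊆ B x) → ∀ x, B x ⊆ A x

/-- `dom A = {x : A x ≠ ∅}`. -/
def domOp (A : H → Set H) : Set H := {x | (A x).Nonempty}

/-- `ran A = ⋃ x, A x`. -/
def ranOp (A : H → Set H) : Set H := {u | ∃ x, u ∈ A x}

/-- `f : H → (-∞, +∞]` is proper, lower semicontinuous and convex. -/
structure IsProperLscConvex (f : H → EReal) : Prop where
  ne_bot : ∀ x, f x ≠ ⊥
  proper : ∃ x, f x ≠ ⊤
  lsc : LowerSemicontinuous f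
  convex : ∀ x y : H, ∀ a b : ℝ, 0 < a → 0 < b → a + b = 1 →
    f (a • x + b • y) ≤ (a : EReal) * f x + (b : EReal) * f y

/-- The subdifferential: `u ∈ ∂f(x)` iff `f y ≥ f x + ⟨u, y - x⟩` for all `y`. -/
def subdiff (f : H → EReal) (x : H) : Set H :=
  {u | ∀ y, f x + ((inner ℝ u (y - x) : ℝ) : EReal) ≤ f y}

/-- the graph of a maximally monotone map is closed -/
theorem IsMaximallyMonotone.isClosed_graph {A : H → Set H} (hA : IsMaximallyMonotone A) :
    IsClosed {p : H × H | p.2 ∈ A p.1} := by
  have key : {p : H × H | p.2 ∈ A p.1} =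
      ⋂ q ∈ {q : H × H | q.2 ∈ A q.1}, {p : H × H | 0 ≤ inner ℝ (p.2 - q.2) (p.1 - q.1)} := by
    ext ⟨x, u⟩
    simp only [mem_ofPred_eq, mem_iInter, Prod.forall]
    constructor
    · intro hu y v hv
      exact hA.1 x y u v hu hv
    · intro h
      let B : H → Set H := fun z => A z ∪ {w | z = x ∧ w = u}
      have hB : IsMonotoneOp B := by
        rintro a b c d (hc | ⟨rfl, rfl⟩) (hd | ⟨rfl, rfl⟩)
        · exact hA.1 a b c d hc hd
        · have := h a c hc
          rw [← neg_sub c d, ← neg_sub a b, inner_neg_neg] at this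
          exact this
        · exact h b d hd
        · simp
      exact hA.2 B hB (fun z => subset_union_left) x (Or.inr ⟨rfl, rfl⟩)
  rw [key]
  refine isClosed_biInter fun q _ => ?_
  exact isClosed_le continuous_const (by fun_prop)

/-- the graph of the subdifferential of a lower semicontinuous function is closed -/
theorem isClosed_graph_subdiff {f : H → EReal} (hf : IsProperLscConvex f) :
    IsClosed {p : H × H | p.2 ∈ subdiff f p.1} := by
  have key : {p : H × H | p.2 ∈ subdiff f p.1} =
      ⋂ y : H, {p : H × H | f p.1 + ((inner ℝ p.2 (y - p.1) : ℝ) : EReal) ≤ f y} := by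
    ext ⟨x, u⟩
    simp [subdiff]
  rw [key]
  refine isClosed_iInter fun y => ?_
  rcases eq_or_ne (f y) ⊤ with htop | htop
  · simp [htop]
  · lift f y to ℝ using ⟨htop, hf.ne_bot y⟩ with t ht
    have h2 : {p : H × H | f p.1 + ((inner ℝ p.2 (y - p.1) : ℝ) : EReal) ≤ (t : EReal)} =
        (fun p : H × H => (p.1, ((t - inner ℝ p.2 (y - p.1) : ℝ) : EReal))) ⁻¹'
          {q : H × EReal | f q.1 ≤ q.2} := by
      ext ⟨x, u⟩
      simp only [mem_ofPred_eq, mem_preimage]
      rcases eq_or_ne (f x) ⊤ with hx | hx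
      · rw [hx]
        constructor
        · intro h
          rw [EReal.top_add_coe] at h
          exact absurd h (by simp)
        · intro h
          exact absurd (top_le_iff.1 h) (EReal.coe_ne_top _)
      · obtain ⟨s, hs⟩ : ∃ s : ℝ, f x = s := ⟨(f x).toReal, (EReal.coe_toReal hx (hf.ne_bot x)).symm⟩
        rw [hs]
        norm_cast
        exact le_sub_iff_add_le.symm
    rw [h2]
    refine hf.lsc.isClosed_epigraph.preimage ?_
    refine continuous_fst.prodMk ?_
    exact continuous_coe_real_ereal.comp (by fun_prop)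

theorem isSigmaCompact_dom_of_closed_graph [ProperSpace H] {A : H → Set H}
    (hA : IsClosed {p : H × H | p.2 ∈ A p.1}) : IsSigmaCompact (domOp A) := by
  have h1 : domOp A = Prod.fst '' {p : H × H | p.2 ∈ A p.1} := by
    ext x
    simp only [domOp, mem_ofPred_eq, mem_image, Prod.exists, exists_and_right, exists_eq_right]
    rfl
  rw [h1]
  exact (isSigmaCompact_univ.of_isClosed_subset hA (subset_univ _)).image continuous_fst

theorem isSigmaCompact_ran_of_closed_graph [ProperSpace H] {A : H → Set H}
    (hA : IsClosed {p : H × H | p.2 ∈ A p.1}) : IsSigmaCompact (ranOp A) := by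
  have h1 : ranOp A = Prod.snd '' {p : H × H | p.2 ∈ A p.1} := by
    ext x
    simp [ranOp]
  rw [h1]
  exact (isSigmaCompact_univ.of_isClosed_subset hA (subset_univ _)).image continuous_snd

end Pool.Agent.H230R3
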