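import Pool.Agent.H230R3.MonoDefs

set_option autoImplicit false
open Set Metric Filter Topology

namespace Pool.Agent.H230R3

/-- The irrational points of `[-1, 1]` are not a countable union of compact sets. -/
theorem irr_not_sigmaCompact (J : ℕ → Set ℝ) (hJ : ∀ n, IsCompact (J n))
    (hU : ⋃ n, J n = {t : ℝ | |t| ≤ 1 ∧ Irrational t}) : False := by
  let F : (ℕ ⊕ ℚ) ⊕ Bool → Set ℝ := fun i =>
    match i with
    | Sum.inl (Sum.inl n) => J n
    | Sum.inl (Sum.inr q) => {(q : ℝ)}
    | Sum.inr true => Ici 1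
    | Sum.inr false => Iic (-1)
  have hc : ∀ i, IsClosed (F i) := by
    rintro ((n | q) | (_ | _))
    · exact (hJ n).isClosed
    · exact isClosed_singleton
    · exact isClosed_Iic
    · exact isClosed_Ici
  have hcov : ⋃ i, F i = univ := by
    refine eq_univ_of_forall fun t => ?_
    rw [mem_iUnion]
    by_cases h : Irrational t
    · by_cases h1 : |t| ≤ 1
      · have : t ∈ ⋃ n, J n := by rw [hU]; exact ⟨h1, h⟩
        obtain ⟨n, hn⟩ := mem_iUnion.1 this
        exact ⟨Sum.inl (Sum.inl n), hn⟩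
      · rcases le_total 0 t with h0 | h0
        · rw [abs_of_nonneg h0] at h1
          exact ⟨Sum.inr true, le_of_lt (not_le.1 h1)⟩
        · rw [abs_of_nonpos h0] at h1
          refine ⟨Sum.inr false, ?_⟩
          have : 1 < -t := not_le.1 h1
          show t ≤ -1
          linarith
    · rw [Irrational, not_not] at h
      obtain ⟨q, hq⟩ := h
      exact ⟨Sum.inl (Sum.inr q), hq.symm⟩
  have hd := dense_iUnion_interior_of_closed hc hcov
  obtain ⟨t, htI, ht⟩ := hd.exists_mem_open (isOpen_Ioo (a := (-1 : ℝ)) (b := 1)) ⟨0, by norm_num, by norm_num⟩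
  obtain ⟨i, hi⟩ := mem_iUnion.1 htI
  rcases i with ((n | q) | (_ | _))
  · obtain ⟨q, hq1⟩ : ∃ q : ℚ, (q : ℝ) ∈ interior (J n) := by
      exact (Rat.denseRange_cast (𝕜 := ℝ)).exists_mem_open isOpen_interior ⟨t, hi⟩
    have : (q : ℝ) ∈ ⋃ n, J n := mem_iUnion.2 ⟨n, interior_subset hq1⟩
    rw [hU] at this
    exact this.2 ⟨q, rfl⟩
  · have h1 : interior (F (Sum.inl (Sum.inr q))) = ∅ := interior_singleton _
    rw [h1] at hi
    exact hi
  · have h1 : interior (F (Sum.inr false)) = Iio (-1) := interior_Iic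
    rw [h1] at hi
    exact absurd ht.1 (not_lt.2 (le_of_lt hi))
  · have h1 : interior (F (Sum.inr true)) = Ioi 1 := interior_Ici
    rw [h1] at hi
    exact absurd ht.2 (not_lt.2 (le_of_lt hi))

/-- Given a unit-sphere subset containing all the points with irrational first coordinate and no
point with rational first coordinate ..., sets between are not `σ`-compact. -/
theorem not_sigmaCompact_of_sphere {n : ℕ} (hn : 2 ≤ n) (C : Set (EuclideanSpace ℝ (Fin n)))
    (hC : ∀ x : EuclideanSpace ℝ (Fin n), ‖x‖ = 1 → (x ∈ C ↔ Irrational (x ⟨0, by omega⟩))) :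
    ¬ IsSigmaCompact C := by
  rintro ⟨K, hK, hKU⟩
  refine irr_not_sigmaCompact (fun m => (fun x : EuclideanSpace ℝ (Fin n) => x ⟨0, by omega⟩) ''
    (K m ∩ sphere 0 1)) (fun m => ?_) ?_
  · exact ((hK m).inter_right isClosed_sphere).image (by fun_prop)
  · ext t
    simp only [mem_iUnion, mem_image, mem_inter_iff, mem_sphere_iff_norm, sub_zero]
    constructor
    · rintro ⟨m, x, ⟨hx, hx1⟩, rfl⟩
      refine ⟨?_, ?_⟩
      · have := EuclideanSpace.norm_sq_eq x
        rw [hx1] at this
        have h2 : ‖x ⟨0, by omega⟩‖ ^ 2 ≤ ∑ i, ‖x i‖ ^ 2 :=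
          Finset.single_le_sum (f := fun i => ‖x i‖ ^ 2) (fun i _ => by positivity) (Finset.mem_univ _)
        rw [← this, Real.norm_eq_abs] at h2
        nlinarith [abs_nonneg (x ⟨0, by omega⟩)]
      · have hxC : x ∈ C := by rw [← hKU]; exact mem_iUnion.2 ⟨m, hx⟩
        exact (hC x hx1).1 hxC
    · rintro ⟨h1, h2⟩
      let x : EuclideanSpace ℝ (Fin n) := t • EuclideanSpace.single ⟨0, by omega⟩ (1 : ℝ) +
        Real.sqrt (1 - t ^ 2) • EuclideanSpace.single ⟨1, by omega⟩ (1 : ℝ)
      have ht2 : 0 ≤ 1 - t ^ 2 := by nlinarith [abs_nonneg t, sq_abs t]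
      have hne : (⟨0, by omega⟩ : Fin n) ≠ ⟨1, by omega⟩ := by simp
      have hx0 : x ⟨0, by omega⟩ = t := by
        simp [x, PiLp.single_apply]
      have hx1 : ‖x‖ = 1 := by
        have h3 : ‖x‖ ^ 2 = 1 := by
          rw [← real_inner_self_eq_norm_sq]
          simp only [x, inner_add_left, inner_add_right, inner_smul_left, inner_smul_right,
            EuclideanSpace.inner_single_left, PiLp.single_apply]
          simp only [conj_trivial, hne, hne.symm, if_true, if_false]
          have := Real.mul_self_sqrt ht2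
          simp
          nlinarith
        nlinarith [norm_nonneg x]
      have hxC : x ∈ C := (hC x hx1).2 (by rw [hx0]; exact h2)
      rw [← hKU] at hxC
      obtain ⟨m, hm⟩ := mem_iUnion.1 hxC
      exact ⟨m, x, ⟨hm, hx1⟩, hx0⟩

end Pool.Agent.H230R3
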