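import Pool.Agent.H230R3.MonoDefs

set_option autoImplicit false
set_option linter.unusedSectionVars false
set_option linter.unusedVariables false
open Set Metric Filter Topology

namespace Pool.Agent.H230R3

variable {H : Type*} [NormedAddCommGroup H] [InnerProductSpace ℝ H]

/-- supergradients of the distance to the complement of a convex body -/
theorem supergrad [FiniteDimensional ℝ H] {D : Set H} (hD : Convex ℝ D)
    (hint : (interior D).Nonempty) (hB : ((closure D)ᶜ).Nonempty) {x : H} (hx : x ∈ closure D) :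
    ∃ v : H, ∀ y ∈ closure D, infDist y (closure D)ᶜ ≤ infDist x (closure D)ᶜ + inner ℝ v (y - x) := by
  obtain ⟨b, hb, hxb⟩ := isClosed_closure.exists_infDist_eq_dist (hB.closure) x
  rw [infDist_closure] at hxb
  have hbD : b ∉ interior D := by
    rw [closure_compl] at hb
    exact fun h => hb (interior_mono subset_closure h)
  obtain ⟨φ, hφ⟩ := geometric_hahn_banach_open_point hD.interior isOpen_interior hbD
  have hφ2 : ∀ y ∈ closure D, φ y ≤ φ b := by
    intro y hy
    rw [← hD.closure_interior_eq_closure_of_nonempty_interior hint] at hy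
    exact closure_minimal (s := interior D) (t := {y | φ y ≤ φ b}) (fun a ha => (hφ a ha).le)
      (isClosed_le φ.continuous continuous_const) hy
  set v0 : H := (InnerProductSpace.toDual ℝ H).symm φ with hv0
  have hφv : ∀ y, φ y = inner ℝ v0 y := fun y => by
    rw [hv0, InnerProductSpace.toDual_symm_apply]
  have hv0ne : v0 ≠ 0 := by
    intro h
    obtain ⟨a, ha⟩ := hint
    have := hφ a ha
    rw [hφv, hφv, h] at this
    simp at this
  have hpos : 0 < ‖v0‖ := norm_pos_iff.2 hv0ne
  set v : H := -(‖v0‖⁻¹ • v0) with hv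
  have hvn : ‖v‖ = 1 := by
    rw [hv, norm_neg, norm_smul, norm_inv, norm_norm, inv_mul_cancel₀ hpos.ne']
  have hvin : ∀ y, inner ℝ v y = -(‖v0‖⁻¹ * φ y) := fun y => by
    rw [hv, inner_neg_left, inner_smul_left, hφv]; simp
  have hvb : ∀ y ∈ closure D, 0 ≤ inner ℝ v (y - b) := by
    intro y hy
    rw [hvin, map_sub]
    have := hφ2 y hy
    have h3 : 0 ≤ ‖v0‖⁻¹ := by positivity
    nlinarith
  have hw : ∀ y ∈ closure D, infDist y (closure D)ᶜ ≤ inner ℝ v (y - b) := by
    intro y hy
    refine le_of_forall_pos_le_add fun ε hε => ?_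
    set t : ℝ := inner ℝ v (y - b) with ht
    have hp : y - (t + ε) • v ∈ (closure D)ᶜ := by
      intro hcon
      have := hvb _ hcon
      have h4 : inner ℝ v (y - (t + ε) • v - b) = t - (t + ε) * 1 := by
        rw [show y - (t + ε) • v - b = (y - b) - (t + ε) • v by abel, inner_sub_right,
          inner_smul_right, real_inner_self_eq_norm_sq, hvn, ← ht]
        norm_num
      rw [h4] at this
      linarith
    refine (infDist_le_dist_of_mem hp).trans ?_
    rw [dist_eq_norm, show y - (y - (t + ε) • v) = (t + ε) • v by abel, norm_smul, hvn, mul_one,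
      Real.norm_eq_abs, abs_of_nonneg (add_nonneg (hvb y hy) hε.le)]
  refine ⟨v, fun y hy => (hw y hy).trans ?_⟩
  have h5 : inner ℝ v (y - b) = inner ℝ v (x - b) + inner ℝ v (y - x) := by
    rw [← inner_add_right]; congr 1; abel
  rw [h5]
  have h6 : inner ℝ v (x - b) ≤ infDist x (closure D)ᶜ := by
    rw [hxb, dist_eq_norm]
    calc inner ℝ v (x - b) ≤ ‖v‖ * ‖x - b‖ := real_inner_le_norm _ _
      _ = ‖x - b‖ := by rw [hvn, one_mul]
  linarith

/-- the functions `|x|² - d_K(x)² - m w(x)` -/
noncomputable def hm (K : ℕ → Set H) (D : Set H) (m : ℕ) (x : H) : ℝ :=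
  ‖x‖ ^ 2 - infDist x (K m) ^ 2 - m * infDist x (closure D)ᶜ

theorem hm_subgrad [FiniteDimensional ℝ H] {D : Set H} (hD : Convex ℝ D)
    (hint : (interior D).Nonempty) (hB : ((closure D)ᶜ).Nonempty) {K : ℕ → Set H}
    (hK : ∀ m, IsCompact (K m)) (hKne : ∀ m, (K m).Nonempty) (m : ℕ) {x : H}
    (hx : x ∈ closure D) :
    ∃ u : H, ∀ y ∈ closure D, hm K D m x + inner ℝ u (y - x) ≤ hm K D m y := by
  obtain ⟨v, hv⟩ := supergrad hD hint hB hx
  obtain ⟨p, hp, hxp⟩ := (hK m).exists_infDist_eq_dist (hKne m) x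
  refine ⟨(2 : ℝ) • p - (m : ℝ) • v, fun y hy => ?_⟩
  have h1 := hv y hy
  have h2 : infDist y (K m) ≤ dist y p := infDist_le_dist_of_mem hp
  have h2' : infDist y (K m) ^ 2 ≤ ‖y - p‖ ^ 2 := by
    rw [← dist_eq_norm]
    exact pow_le_pow_left₀ infDist_nonneg h2 2
  have h3 : ‖y - p‖ ^ 2 = ‖y‖ ^ 2 - 2 * inner ℝ y p + ‖p‖ ^ 2 := by
    rw [norm_sub_sq_real]
  have h4 : ‖x - p‖ ^ 2 = ‖x‖ ^ 2 - 2 * inner ℝ x p + ‖p‖ ^ 2 := by
    rw [norm_sub_sq_real]
  unfold hm
  rw [hxp, dist_eq_norm, h4]
  rw [h3] at h2'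
  have h5 : inner ℝ ((2 : ℝ) • p - (m : ℝ) • v) (y - x) =
      2 * (inner ℝ y p - inner ℝ x p) - m * inner ℝ v (y - x) := by
    rw [inner_sub_left, inner_smul_left, inner_smul_left, inner_sub_right, real_inner_comm y p,
      real_inner_comm x p]
    simp
  rw [h5]
  have hm0 : (0 : ℝ) ≤ m := Nat.cast_nonneg m
  nlinarith [mul_le_mul_of_nonneg_left h1 hm0]

theorem hm_le (K : ℕ → Set H) (D : Set H) (m : ℕ) (x : H) : hm K D m x ≤ ‖x‖ ^ 2 := by
  unfold hm
  have h1 : 0 ≤ infDist x (K m) ^ 2 := by positivity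
  have h2 : 0 ≤ (m : ℝ) * infDist x (closure D)ᶜ := mul_nonneg (Nat.cast_nonneg m) infDist_nonneg
  linarith

theorem hm_bdd (K : ℕ → Set H) (D : Set H) (x : H) : BddAbove (range fun m => hm K D m x) :=
  ⟨‖x‖ ^ 2, by rintro _ ⟨m, rfl⟩; exact hm_le K D m x⟩

theorem hm_continuous (K : ℕ → Set H) (D : Set H) (m : ℕ) : Continuous (hm K D m) := by
  unfold hm
  exact ((continuous_norm.pow 2).sub ((continuous_infDist_pt _).pow 2)).sub
    (continuous_const.mul (continuous_infDist_pt _))

open Classical in
/-- the convex function whose subdifferential has the prescribed domain -/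
noncomputable def Ff (K : ℕ → Set H) (D : Set H) (x : H) : EReal :=
  if x ∈ closure D then ((⨆ m, hm K D m x : ℝ) : EReal) else ⊤

theorem Ff_of_mem {K : ℕ → Set H} {D : Set H} {x : H} (hx : x ∈ closure D) :
    Ff K D x = ((⨆ m, hm K D m x : ℝ) : EReal) := if_pos hx

theorem Ff_of_notMem {K : ℕ → Set H} {D : Set H} {x : H} (hx : x ∉ closure D) :
    Ff K D x = ⊤ := if_neg hx

theorem Ff_proper [FiniteDimensional ℝ H] {D : Set H} (hD : Convex ℝ D)
    (hint : (interior D).Nonempty) (hB : ((closure D)ᶜ).Nonempty) {K : ℕ → Set H}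
    (hK : ∀ m, IsCompact (K m)) (hKne : ∀ m, (K m).Nonempty) : IsProperLscConvex (Ff K D) where
  ne_bot x := by
    by_cases hx : x ∈ closure D
    · rw [Ff_of_mem hx]; exact EReal.coe_ne_bot _
    · rw [Ff_of_notMem hx]; exact top_ne_bot
  proper := by
    obtain ⟨x, hx⟩ := hint
    refine ⟨x, ?_⟩
    rw [Ff_of_mem (subset_closure (interior_subset hx))]
    exact EReal.coe_ne_top _
  lsc := by
    rw [lowerSemicontinuous_iff_isClosed_preimage]
    intro y
    rcases eq_or_ne y ⊤ with rfl | hy
    · simp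
    · have : Ff K D ⁻¹' Iic y = closure D ∩ ⋂ m, {x | ((hm K D m x : ℝ) : EReal) ≤ y} := by
        ext x
        simp only [mem_preimage, mem_Iic, mem_inter_iff, mem_iInter, mem_ofPred_eq]
        constructor
        · intro h
          by_cases hx : x ∈ closure D
          · rw [Ff_of_mem hx] at h
            refine ⟨hx, fun m => le_trans ?_ h⟩
            exact EReal.coe_le_coe_iff.2 (le_ciSup (hm_bdd K D x) m)
          · rw [Ff_of_notMem hx] at h
            exact absurd (top_le_iff.1 h) hy
        · rintro ⟨hx, h⟩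
          rw [Ff_of_mem hx]
          rcases eq_or_ne y ⊥ with rfl | hyb
          · exact absurd (le_bot_iff.1 (h 0)) (EReal.coe_ne_bot _)
          · lift y to ℝ using ⟨hy, hyb⟩
            refine EReal.coe_le_coe_iff.2 (ciSup_le fun m => ?_)
            exact EReal.coe_le_coe_iff.1 (h m)
      rw [this]
      refine isClosed_closure.inter (isClosed_iInter fun m => ?_)
      exact isClosed_le (continuous_coe_real_ereal.comp (hm_continuous K D m)) continuous_const
  convex x y a b ha hb hab := by
    by_cases hx : x ∈ closure D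
    · by_cases hy : y ∈ closure D
      · have hz : a • x + b • y ∈ closure D := hD.closure hx hy ha.le hb.le hab
        rw [Ff_of_mem hx, Ff_of_mem hy, Ff_of_mem hz]
        norm_cast
        refine ciSup_le fun m => ?_
        obtain ⟨u, hu⟩ := hm_subgrad hD hint hB hK hKne m hz
        have h1 := hu x hx
        have h2 := hu y hy
        have h3 : hm K D m x ≤ ⨆ m, hm K D m x := le_ciSup (hm_bdd K D x) m
        have h4 : hm K D m y ≤ ⨆ m, hm K D m y := le_ciSup (hm_bdd K D y) m
        have h5 : a * inner ℝ u (x - (a • x + b • y)) + b * inner ℝ u (y - (a • x + b • y)) = 0 := by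
          rw [← inner_smul_right, ← inner_smul_right, ← inner_add_right]
          have : a • (x - (a • x + b • y)) + b • (y - (a • x + b • y)) = 0 := by
            have e : a • (x - (a • x + b • y)) + b • (y - (a • x + b • y)) =
              (1 - (a + b)) • (a • x + b • y) := by module
            rw [e, hab]; simp
          rw [this, inner_zero_right]
        have e : (a + b) * hm K D m (a • x + b • y) = hm K D m (a • x + b • y) := by
          rw [hab, one_mul]
        nlinarith [mul_le_mul_of_nonneg_left h1 ha.le, mul_le_mul_of_nonneg_left h2 hb.le,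
          mul_le_mul_of_nonneg_left h3 ha.le, mul_le_mul_of_nonneg_left h4 hb.le]
      · rw [Ff_of_notMem hy, EReal.coe_mul_top_of_pos hb, Ff_of_mem hx, ← EReal.coe_mul,
          EReal.coe_add_top]
        exact le_top
    · by_cases hy : y ∈ closure D
      · rw [Ff_of_notMem hx, EReal.coe_mul_top_of_pos ha, Ff_of_mem hy, ← EReal.coe_mul,
          EReal.top_add_coe]
        exact le_top
      · rw [Ff_of_notMem hx, Ff_of_notMem hy, EReal.coe_mul_top_of_pos ha,
          EReal.coe_mul_top_of_pos hb, EReal.top_add_top]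
        exact le_top

end Pool.Agent.H230R3
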