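import Pool.Agent.H230R3.NearA

set_option autoImplicit false
set_option linter.unusedSectionVars false
set_option linter.unusedVariables false
open Set Metric Filter Topology

namespace Pool.Agent.H230R3

variable {H : Type*} [NormedAddCommGroup H] [InnerProductSpace ℝ H]

/-- the supremum is attained at points of `⋃ K m` -/
theorem attained {D : Set H} {K : ℕ → Set H} {x : H} (hx : x ∈ ⋃ m, K m) :
    ∃ m, ∀ k, hm K D k x ≤ hm K D m x := by
  rcases eq_or_lt_of_le (infDist_nonneg (x := x) (s := (closure D)ᶜ)) with h0 | h0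
  · obtain ⟨m, hm'⟩ := mem_iUnion.1 hx
    refine ⟨m, fun k => (hm_le K D k x).trans ?_⟩
    unfold hm
    rw [← h0, infDist_zero_of_mem hm']
    simp
  · obtain ⟨N, hN⟩ := exists_nat_gt (infDist x (K 0) ^ 2 / infDist x (closure D)ᶜ)
    rw [div_lt_iff₀ h0] at hN
    obtain ⟨m, hm1, hm2⟩ := Finset.exists_max_image (Finset.range (N + 1)) (fun k => hm K D k x)
      ⟨0, by simp⟩
    refine ⟨m, fun k => ?_⟩
    by_cases hk : k ∈ Finset.range (N + 1)
    · exact hm2 k hk
    · refine le_trans ?_ (hm2 0 (by simp))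
      simp only [Finset.mem_range, not_lt] at hk
      have hk' : (N : ℝ) ≤ k := by exact_mod_cast (by omega : N ≤ k)
      have h3 : (N : ℝ) * infDist x (closure D)ᶜ ≤ k * infDist x (closure D)ᶜ :=
        mul_le_mul_of_nonneg_right hk' h0.le
      unfold hm
      have h4 : 0 ≤ infDist x (K k) ^ 2 := by positivity
      simp only [Nat.cast_zero, zero_mul, sub_zero]
      linarith

theorem concave_seg [FiniteDimensional ℝ H] {D : Set H} (hD : Convex ℝ D)
    (hint : (interior D).Nonempty) (hB : ((closure D)ᶜ).Nonempty) {x x0 : H}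
    (hx : x ∈ closure D) (hx0 : x0 ∈ closure D) {s : ℝ} (hs0 : 0 ≤ s) (hs1 : s ≤ 1) :
    s * infDist x0 (closure D)ᶜ ≤ infDist (x + s • (x0 - x)) (closure D)ᶜ := by
  have hz : x + s • (x0 - x) ∈ closure D := by
    have := hD.closure hx hx0 (by linarith : 0 ≤ 1 - s) hs0 (by ring)
    convert this using 1
    module
  obtain ⟨v, hv⟩ := supergrad hD hint hB hz
  have h1 := hv x hx
  have h2 := hv x0 hx0
  have h3 : (1 - s) * inner ℝ v (x - (x + s • (x0 - x))) +
      s * inner ℝ v (x0 - (x + s • (x0 - x))) = 0 := by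
    rw [← inner_smul_right, ← inner_smul_right, ← inner_add_right]
    have : (1 - s) • (x - (x + s • (x0 - x))) + s • (x0 - (x + s • (x0 - x))) = 0 := by module
    rw [this, inner_zero_right]
  have h4 : 0 ≤ infDist x (closure D)ᶜ := infDist_nonneg
  nlinarith [mul_le_mul_of_nonneg_left h1 (by linarith : 0 ≤ 1 - s),
    mul_le_mul_of_nonneg_left h2 hs0, mul_nonneg (by linarith : 0 ≤ 1 - s) h4]

theorem dom_Ff [FiniteDimensional ℝ H] {C D : Set H} (hD : Convex ℝ D)
    (hint : (interior D).Nonempty) (hB : ((closure D)ᶜ).Nonempty) (hDC : D ⊆ C)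
    (hCD : C ⊆ closure D) {K : ℕ → Set H}
    (hK : ∀ m, IsCompact (K m)) (hKne : ∀ m, (K m).Nonempty) (hKm : Monotone K)
    (hKU : ⋃ m, K m = C) : domOp (subdiff (Ff K D)) = C := by
  ext x
  constructor
  · rintro ⟨u, hu⟩
    obtain ⟨x0, hx0⟩ := hint
    have hx0D : x0 ∈ closure D := subset_closure (interior_subset hx0)
    have hxD : x ∈ closure D := by
      by_contra hx
      have h1 := hu x0
      rw [Ff_of_notMem hx, Ff_of_mem hx0D, EReal.top_add_coe] at h1
      exact absurd (top_le_iff.1 h1) (EReal.coe_ne_top _)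
    by_contra hxC
    have hxK : ∀ m, x ∉ K m := fun m hm => hxC (hKU ▸ mem_iUnion.2 ⟨m, hm⟩)
    have hd : ∀ m, 0 < infDist x (K m) := fun m =>
      ((hK m).isClosed.notMem_iff_infDist_pos (hKne m)).1 (hxK m)
    have hw0 : infDist x (closure D)ᶜ = 0 := by
      rw [← mem_closure_iff_infDist_zero hB, closure_compl,
        hD.interior_closure_eq_interior_of_nonempty_interior ⟨x0, hx0⟩]
      exact fun h => hxC (hDC (interior_subset h))
    -- the value at `x`
    have hFx : ‖x‖ ^ 2 ≤ ⨆ m, hm K D m x := by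
      refine le_of_forall_pos_le_add fun ε hε => ?_
      have hxcl : x ∈ closure C := closure_mono hDC hxD
      obtain ⟨δ, hδ, hδε⟩ : ∃ δ : ℝ, 0 < δ ∧ δ ^ 2 ≤ ε :=
        ⟨Real.sqrt ε, Real.sqrt_pos.2 hε, (Real.sq_sqrt hε.le).le⟩
      obtain ⟨c, hc, hxc⟩ := Metric.mem_closure_iff.1 hxcl δ hδ
      rw [← hKU] at hc
      obtain ⟨m, hmc⟩ := mem_iUnion.1 hc
      have h1 : infDist x (K m) ≤ δ := (infDist_le_dist_of_mem hmc).trans hxc.le
      have h2 : infDist x (K m) ^ 2 ≤ δ ^ 2 := pow_le_pow_left₀ infDist_nonneg h1 2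
      have h3 : hm K D m x ≤ ⨆ m, hm K D m x := le_ciSup (hm_bdd K D x) m
      have h4 : hm K D m x = ‖x‖ ^ 2 - infDist x (K m) ^ 2 := by
        unfold hm; rw [hw0]; ring
      linarith
    set w0 := infDist x0 (closure D)ᶜ with hw0'
    have hw0pos : 0 < w0 := by
      have : x0 ∉ closure ((closure D)ᶜ) := by
        rw [closure_compl]
        exact fun h => h (interior_mono subset_closure hx0)
      rw [mem_closure_iff_infDist_zero hB] at this
      exact lt_of_le_of_ne infDist_nonneg (Ne.symm this)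
    set R := ‖x0 - x‖ with hR
    have hR0 : 0 ≤ R := norm_nonneg _
    set L := 2 * ‖x‖ * R + R ^ 2 + |inner ℝ u (x0 - x)| + 1 with hL
    have hLpos : 0 < L := by positivity
    obtain ⟨N, hN⟩ := exists_nat_gt (L / w0)
    rw [div_lt_iff₀ hw0pos] at hN
    set δ := infDist x (K N) with hδ
    have hδpos : 0 < δ := hd N
    obtain ⟨s, hs0, hs1, hsR, hsL⟩ : ∃ s : ℝ, 0 < s ∧ s ≤ 1 ∧ s * R ≤ δ / 2 ∧ s * L < δ ^ 2 / 4 := by
      refine ⟨min 1 (min (δ / (2 * (R + 1))) (δ ^ 2 / (8 * L))), ?_, min_le_left _ _, ?_, ?_⟩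
      · exact lt_min one_pos (lt_min (by positivity) (by positivity))
      · have h1 : min 1 (min (δ / (2 * (R + 1))) (δ ^ 2 / (8 * L))) ≤ δ / (2 * (R + 1)) :=
          (min_le_right _ _).trans (min_le_left _ _)
        calc _ ≤ δ / (2 * (R + 1)) * R := mul_le_mul_of_nonneg_right h1 hR0
          _ ≤ δ / (2 * (R + 1)) * (R + 1) := by
              apply mul_le_mul_of_nonneg_left (by linarith) (by positivity)
          _ = δ / 2 := by field_simp
      · have h1 : min 1 (min (δ / (2 * (R + 1))) (δ ^ 2 / (8 * L))) ≤ δ ^ 2 / (8 * L) :=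
          (min_le_right _ _).trans (min_le_right _ _)
        calc _ ≤ δ ^ 2 / (8 * L) * L := mul_le_mul_of_nonneg_right h1 hLpos.le
          _ = δ ^ 2 / 8 := by field_simp
          _ < δ ^ 2 / 4 := by nlinarith [pow_pos hδpos 2]
    set z := x + s • (x0 - x) with hz
    have hzD : z ∈ closure D := by
      have := hD.closure hxD hx0D (by linarith : 0 ≤ 1 - s) hs0.le (by ring)
      convert this using 1
      rw [hz]; module
    have hwz : s * w0 ≤ infDist z (closure D)ᶜ := concave_seg hD ⟨x0, hx0⟩ hB hxD hx0D hs0.le hs1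
    have hzx : dist z x = s * R := by
      rw [hz, dist_eq_norm, add_sub_cancel_left, norm_smul, Real.norm_eq_abs, abs_of_pos hs0]
    have hzn : ‖z‖ ^ 2 ≤ ‖x‖ ^ 2 + s * (2 * ‖x‖ * R + R ^ 2) := by
      have h1 : ‖z‖ ≤ ‖x‖ + s * R := by
        calc ‖z‖ ≤ ‖x‖ + ‖s • (x0 - x)‖ := norm_add_le _ _
          _ = ‖x‖ + s * R := by rw [norm_smul, Real.norm_eq_abs, abs_of_pos hs0]
      have h2 : ‖z‖ ^ 2 ≤ (‖x‖ + s * R) ^ 2 := pow_le_pow_left₀ (norm_nonneg _) h1 2
      nlinarith [norm_nonneg x, mul_nonneg hs0.le hR0, sq_nonneg R,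
        mul_nonneg (mul_nonneg hs0.le (by linarith : 0 ≤ 1 - s)) (sq_nonneg R)]
    -- upper bound at z
    have hFz : ⨆ m, hm K D m z ≤ ‖z‖ ^ 2 - s * L := by
      refine ciSup_le fun m => ?_
      rcases le_total N m with hNm | hmN
      · have h1 : (N : ℝ) * (s * w0) ≤ m * infDist z (closure D)ᶜ :=
          mul_le_mul (by exact_mod_cast hNm) hwz (by positivity) (by positivity)
        have h2 : 0 ≤ infDist z (K m) ^ 2 := by positivity
        unfold hm
        nlinarith
      · have h1 : δ ≤ infDist x (K m) := infDist_le_infDist_of_subset (hKm hmN) (hKne m)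
        have h2 : infDist x (K m) ≤ infDist z (K m) + dist x z := infDist_le_infDist_add_dist
        rw [dist_comm, hzx] at h2
        have h3 : δ / 2 ≤ infDist z (K m) := by linarith
        have h4 : (δ / 2) ^ 2 ≤ infDist z (K m) ^ 2 := pow_le_pow_left₀ (by positivity) h3 2
        have h5 : 0 ≤ (m : ℝ) * infDist z (closure D)ᶜ :=
          mul_nonneg (Nat.cast_nonneg m) infDist_nonneg
        unfold hm
        nlinarith
    have h1 := hu z
    rw [Ff_of_mem hxD, Ff_of_mem hzD] at h1
    norm_cast at h1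
    have h2 : inner ℝ u (z - x) = s * inner ℝ u (x0 - x) := by
      rw [hz, add_sub_cancel_left, inner_smul_right]
    rw [h2] at h1
    have h3 : -|inner ℝ u (x0 - x)| ≤ inner ℝ u (x0 - x) := neg_abs_le _
    have h4 : s * (-|inner ℝ u (x0 - x)|) ≤ s * inner ℝ u (x0 - x) :=
      mul_le_mul_of_nonneg_left h3 hs0.le
    rw [hL] at hFz
    nlinarith
  · intro hx
    have hxD := hCD hx
    rw [← hKU] at hx
    obtain ⟨m, hm1⟩ := attained (D := D) hx
    obtain ⟨u, hu⟩ := hm_subgrad hD hint hB hK hKne m hxD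
    refine ⟨u, fun y => ?_⟩
    by_cases hy : y ∈ closure D
    · rw [Ff_of_mem hxD, Ff_of_mem hy]
      norm_cast
      have h1 : ⨆ k, hm K D k x ≤ hm K D m x := ciSup_le hm1
      have h2 : hm K D m y ≤ ⨆ k, hm K D k y := le_ciSup (hm_bdd K D y) m
      linarith [hu y hy]
    · rw [Ff_of_notMem hy]
      exact le_top

/-- The full-dimensional case. -/
theorem exists_of_interior [FiniteDimensional ℝ H] {C D : Set H} (hD : Convex ℝ D)
    (hint : (interior D).Nonempty) (hDC : D ⊆ C)
    (hCD : C ⊆ closure D) (hC : IsSigmaCompact C) :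
    ∃ f : H → EReal, IsProperLscConvex f ∧ domOp (subdiff f) = C := by
  by_cases hB : ((closure D)ᶜ).Nonempty
  · obtain ⟨K0, hK0, hKU⟩ := hC
    obtain ⟨x0, hx0⟩ := hint
    have hx0C : x0 ∈ C := hDC (interior_subset hx0)
    let K : ℕ → Set H := fun n => {x0} ∪ ⋃ m ∈ Finset.range n, K0 m
    have hKc : ∀ m, IsCompact (K m) := fun m =>
      isCompact_singleton.union ((Finset.range m).isCompact_biUnion fun i _ => hK0 i)
    have hKne : ∀ m, (K m).Nonempty := fun m => ⟨x0, Or.inl rfl⟩
    have hKm : Monotone K := by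
      intro a b hab
      refine union_subset_union_right _ ?_
      refine biUnion_subset_biUnion_left ?_
      intro i hi
      simp only [Finset.mem_coe, Finset.mem_range] at hi ⊢
      exact lt_of_lt_of_le hi hab
    have hKU' : ⋃ m, K m = C := by
      ext x
      simp only [K, mem_iUnion, mem_union, mem_singleton_iff, Finset.mem_range, exists_prop]
      constructor
      · rintro ⟨n, rfl | ⟨i, -, hi⟩⟩
        · exact hx0C
        · rw [← hKU]; exact mem_iUnion.2 ⟨i, hi⟩
      · intro hx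
        rw [← hKU] at hx
        obtain ⟨i, hi⟩ := mem_iUnion.1 hx
        exact ⟨i + 1, Or.inr ⟨i, Nat.lt_succ_self i, hi⟩⟩
    exact ⟨Ff K D, Ff_proper hD ⟨x0, hx0⟩ hB hKc hKne,
      dom_Ff hD ⟨x0, hx0⟩ hB hDC hCD hKc hKne hKm hKU'⟩
  · rw [not_nonempty_iff_eq_empty, compl_empty_iff] at hB
    have hCu : C = univ := by
      refine eq_univ_of_forall fun x => hDC (interior_subset ?_)
      rw [← hD.interior_closure_eq_interior_of_nonempty_interior hint, hB, interior_univ]
      trivial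
    refine ⟨fun _ => 0, ⟨fun x => by simp, ⟨0, by simp⟩, lowerSemicontinuous_const,
      fun x y a b ha hb hab => by simp⟩, ?_⟩
    rw [hCu]
    refine eq_univ_of_forall fun x => ⟨0, fun y => by simp⟩

end Pool.Agent.H230R3
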