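import Pool.Agent.H230R3.NearB

set_option autoImplicit false
set_option linter.unusedSectionVars false
set_option linter.unusedVariables false
open Set Metric Filter Topology

namespace Pool.Agent.H230R3

variable {H : Type*} [NormedAddCommGroup H] [InnerProductSpace ℝ H]

/-- `C` is nearly convex: `D ⊆ C ⊆ cl D` for some convex set `D`. -/
def IsNearlyConvex (C : Set H) : Prop := ∃ D : Set H, Convex ℝ D ∧ D ⊆ C ∧ C ⊆ closure D

open Classical in
/-- extension of a function from `x0 + V` by `⊤` -/
noncomputable def extF (V : Submodule ℝ H) (x0 : H) (g : V → EReal) (x : H) : EReal :=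
  if h : x - x0 ∈ V then g ⟨x - x0, h⟩ else ⊤

theorem extF_of_mem {V : Submodule ℝ H} {x0 : H} {g : V → EReal} {x : H} (h : x - x0 ∈ V) :
    extF V x0 g x = g ⟨x - x0, h⟩ := dif_pos h

theorem extF_of_notMem {V : Submodule ℝ H} {x0 : H} {g : V → EReal} {x : H} (h : x - x0 ∉ V) :
    extF V x0 g x = ⊤ := dif_neg h

theorem pos_mul_ne_bot {a : ℝ} (ha : 0 < a) {x : EReal} (hx : x ≠ ⊥) : (a : EReal) * x ≠ ⊥ := by
  induction x with
  | bot => exact absurd rfl hx
  | coe x => rw [← EReal.coe_mul]; exact EReal.coe_ne_bot _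
  | top => rw [EReal.coe_mul_top_of_pos ha]; exact top_ne_bot

theorem extF_proper [FiniteDimensional ℝ H] {V : Submodule ℝ H} {x0 : H} {g : V → EReal}
    (hg : IsProperLscConvex g) : IsProperLscConvex (extF V x0 g) where
  ne_bot x := by
    by_cases h : x - x0 ∈ V
    · rw [extF_of_mem h]; exact hg.ne_bot _
    · rw [extF_of_notMem h]; exact top_ne_bot
  proper := by
    obtain ⟨v, hv⟩ := hg.proper
    refine ⟨x0 + v, ?_⟩
    have h : x0 + (v : H) - x0 ∈ V := by rw [add_sub_cancel_left]; exact v.2
    rw [extF_of_mem h]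
    convert hv using 2
    simp
  lsc := by
    rw [lowerSemicontinuous_iff_isClosed_preimage]
    intro y
    rcases eq_or_ne y ⊤ with rfl | hy
    · simp
    · have h1 : extF V x0 g ⁻¹' Iic y = (fun v : V => x0 + (v : H)) '' (g ⁻¹' Iic y) := by
        ext x
        simp only [mem_preimage, mem_Iic, mem_image]
        constructor
        · intro h
          by_cases hx : x - x0 ∈ V
          · rw [extF_of_mem hx] at h
            exact ⟨⟨x - x0, hx⟩, h, by simp⟩
          · rw [extF_of_notMem hx] at h
            exact absurd (top_le_iff.1 h) hy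
        · rintro ⟨v, hv, rfl⟩
          have h : x0 + (v : H) - x0 ∈ V := by rw [add_sub_cancel_left]; exact v.2
          rw [extF_of_mem h]
          convert hv using 2
          simp
      rw [h1]
      have hcl : IsClosedEmbedding (fun v : V => x0 + (v : H)) :=
        (Homeomorph.addLeft x0).isClosedEmbedding.comp
          (V.closed_of_finiteDimensional.isClosedEmbedding_subtypeVal)
      exact hcl.isClosedMap _ (lowerSemicontinuous_iff_isClosed_preimage.1 hg.lsc y)
  convex x y a b ha hb hab := by
    by_cases hx : x - x0 ∈ V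
    · by_cases hy : y - x0 ∈ V
      · have hz : a • x + b • y - x0 ∈ V := by
          have e : a • x + b • y - x0 = a • (x - x0) + b • (y - x0) := by
            have : x0 = (a + b) • x0 := by rw [hab, one_smul]
            calc a • x + b • y - x0 = a • x + b • y - (a + b) • x0 := by rw [← this]
              _ = _ := by module
          rw [e]
          exact V.add_mem (V.smul_mem _ hx) (V.smul_mem _ hy)
        rw [extF_of_mem hx, extF_of_mem hy, extF_of_mem hz]
        convert hg.convex ⟨x - x0, hx⟩ ⟨y - x0, hy⟩ a b ha hb hab using 2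
        ext
        simp only [Submodule.coe_add, Submodule.coe_smul]
        have : x0 = (a + b) • x0 := by rw [hab, one_smul]
        calc a • x + b • y - x0 = a • x + b • y - (a + b) • x0 := by rw [← this]
          _ = _ := by module
      · rw [extF_of_notMem hy, EReal.coe_mul_top_of_pos hb, extF_of_mem hx,
          EReal.add_top_of_ne_bot (pos_mul_ne_bot ha (hg.ne_bot _))]
        exact le_top
    · rw [extF_of_notMem hx, EReal.coe_mul_top_of_pos ha, EReal.top_add_of_ne_bot]
      · exact le_top
      · refine pos_mul_ne_bot hb ?_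
        by_cases hy : y - x0 ∈ V
        · rw [extF_of_mem hy]; exact hg.ne_bot _
        · rw [extF_of_notMem hy]; exact top_ne_bot

theorem dom_extF [FiniteDimensional ℝ H] {V : Submodule ℝ H} {x0 : H} {g : V → EReal}
    (hg : IsProperLscConvex g) :
    domOp (subdiff (extF V x0 g)) = (fun v : V => x0 + (v : H)) '' (domOp (subdiff g)) := by
  ext x
  constructor
  · rintro ⟨u, hu⟩
    have hx : x - x0 ∈ V := by
      by_contra hx
      obtain ⟨v, hv⟩ := hg.proper
      have h := hu (x0 + v)
      have h2 : x0 + (v : H) - x0 ∈ V := by rw [add_sub_cancel_left]; exact v.2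
      rw [extF_of_notMem hx, EReal.top_add_coe, extF_of_mem h2] at h
      apply hv
      convert top_le_iff.1 h using 2
      ext; simp
    refine ⟨⟨x - x0, hx⟩, ⟨V.orthogonalProjectionOnto u, fun w => ?_⟩, by simp⟩
    have h := hu (x0 + w)
    have h2 : x0 + (w : H) - x0 ∈ V := by rw [add_sub_cancel_left]; exact w.2
    rw [extF_of_mem hx, extF_of_mem h2] at h
    rw [Submodule.inner_orthogonalProjectionOnto_eq_of_mem_right]
    convert h using 4
    · simp only [AddSubgroupClass.coe_sub]
      abel
    · simp
  · rintro ⟨v, ⟨u, hu⟩, rfl⟩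
    refine ⟨(u : H), fun y => ?_⟩
    have h2 : x0 + (v : H) - x0 ∈ V := by rw [add_sub_cancel_left]; exact v.2
    by_cases hy : y - x0 ∈ V
    · rw [extF_of_mem h2, extF_of_mem hy]
      have h := hu ⟨y - x0, hy⟩
      convert h using 4
      · simp
      · simp only [Submodule.coe_inner, AddSubgroupClass.coe_sub]
        congr 1
        abel
    · rw [extF_of_notMem hy]; exact le_top

/-- Every nonempty nearly convex `σ`-compact set is the domain of a subdifferential. -/
theorem exists_of_nearlyConvex [FiniteDimensional ℝ H] {C : Set H} (hne : C.Nonempty)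
    (hC : IsNearlyConvex C) (hs : IsSigmaCompact C) :
    ∃ f : H → EReal, IsProperLscConvex f ∧ domOp (subdiff f) = C := by
  obtain ⟨D, hD, hDC, hCD⟩ := hC
  have hDne : D.Nonempty := by
    rw [← closure_nonempty_iff]
    exact hne.mono hCD
  obtain ⟨x0, hx0⟩ := hDne
  set S : Set H := (fun d => d - x0) '' D with hS
  set V : Submodule ℝ H := Submodule.span ℝ S with hV
  set j : V → H := fun v => x0 + (v : H) with hj
  have hcl : IsClosedEmbedding j :=
    (Homeomorph.addLeft x0).isClosedEmbedding.comp
      (V.closed_of_finiteDimensional.isClosedEmbedding_subtypeVal)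
  have hDr : D ⊆ range j := by
    intro d hd
    exact ⟨⟨d - x0, Submodule.subset_span ⟨d, hd, rfl⟩⟩, by simp [hj]⟩
  have hCr : C ⊆ range j := hCD.trans (closure_minimal hDr hcl.isClosed_range)
  have hjD : j '' (j ⁻¹' D) = D := by rw [image_preimage_eq_inter_range]; exact inter_eq_left.2 hDr
  have hjC : j '' (j ⁻¹' C) = C := by rw [image_preimage_eq_inter_range]; exact inter_eq_left.2 hCr
  have hD' : Convex ℝ (j ⁻¹' D) := by
    intro v hv w hw a b ha hb hab
    show x0 + ((a • v + b • w : V) : H) ∈ D
    have h := hD hv hw ha hb hab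
    convert h using 1
    simp only [hj, Submodule.coe_add, Submodule.coe_smul]
    have : x0 = (a + b) • x0 := by rw [hab, one_smul]
    calc x0 + (a • (v : H) + b • (w : H)) = (a + b) • x0 + (a • (v : H) + b • (w : H)) := by
          rw [← this]
      _ = _ := by module
  have h0 : (0 : V) ∈ j ⁻¹' D := by simpa [hj] using hx0
  have hint : (interior (j ⁻¹' D)).Nonempty := by
    rw [hD'.interior_nonempty_iff_affineSpan_eq_top,
      AffineSubspace.affineSpan_eq_top_iff_vectorSpan_eq_top_of_nonempty ℝ V V ⟨0, h0⟩]
    rw [eq_top_iff, ← Submodule.span_span_coe_preimage (R := ℝ) (s := S)]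
    refine Submodule.span_le.2 ?_
    rintro v ⟨d, hd, hdv⟩
    have hv : v ∈ j ⁻¹' D := by
      show x0 + (v : H) ∈ D
      rw [← hdv]
      simpa using hd
    have := vsub_mem_vectorSpan ℝ hv h0
    simpa using this
  have hDC' : j ⁻¹' D ⊆ j ⁻¹' C := preimage_mono hDC
  have hCD' : j ⁻¹' C ⊆ closure (j ⁻¹' D) := by
    rw [hcl.isInducing.closure_eq_preimage_closure_image, hjD]
    exact preimage_mono hCD
  have hs' : IsSigmaCompact (j ⁻¹' C) := by
    rw [hcl.isEmbedding.isSigmaCompact_iff, hjC]
    exact hs
  obtain ⟨g, hg, hgd⟩ := exists_of_interior hD' hint hDC' hCD' hs'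
  refine ⟨extF V x0 g, extF_proper hg, ?_⟩
  rw [dom_extF hg, hgd]
  exact hjC

end Pool.Agent.H230R3
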