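import Pool.Agent.H230R3.NearC

set_option autoImplicit false
set_option linter.unusedSectionVars false
set_option linter.unusedVariables false
open Set Metric Filter Topology

namespace Pool.Agent.H230R3

variable {H : Type*} [NormedAddCommGroup H] [InnerProductSpace ℝ H]

theorem ne_top_of_subdiff {f : H → EReal} (hf : IsProperLscConvex f) {x u : H}
    (hu : u ∈ subdiff f x) : f x ≠ ⊤ := by
  intro h
  obtain ⟨z, hz⟩ := hf.proper
  have h1 := hu z
  rw [h, EReal.top_add_coe] at h1
  exact hz (top_le_iff.1 h1)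

theorem real_of_subdiff {f : H → EReal} (hf : IsProperLscConvex f) {x u : H}
    (hu : u ∈ subdiff f x) : ∃ r : ℝ, f x = r :=
  ⟨(f x).toReal, (EReal.coe_toReal (ne_top_of_subdiff hf hu) (hf.ne_bot x)).symm⟩

theorem subdiff_monotone {f : H → EReal} (hf : IsProperLscConvex f) : IsMonotoneOp (subdiff f) := by
  intro x y u v hu hv
  obtain ⟨r, hr⟩ := real_of_subdiff hf hu
  obtain ⟨s, hs⟩ := real_of_subdiff hf hv
  have h1 := hu y
  have h2 := hv x
  rw [hr, hs] at h1 h2
  norm_cast at h1 h2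
  have h3 : inner ℝ (u - v) (x - y) = - inner ℝ u (y - x) - inner ℝ v (x - y) := by
    rw [inner_sub_left, ← neg_sub y x, inner_neg_right]
  rw [h3]
  linarith

/-- Existence of a proximal point. -/
theorem exists_prox [FiniteDimensional ℝ H] {f : H → EReal} (hf : IsProperLscConvex f)
    {x0 u0 : H} (hu0 : u0 ∈ subdiff f x0) (z : H) :
    ∃ y, ∀ w, f y + ((‖y - z‖ ^ 2 / 2 : ℝ) : EReal) ≤ f w + ((‖w - z‖ ^ 2 / 2 : ℝ) : EReal) := by
  obtain ⟨r, hr⟩ := real_of_subdiff hf hu0
  set g : H → EReal := fun w => f w + ((‖w - z‖ ^ 2 / 2 : ℝ) : EReal) with hg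
  set q : ℝ := r + ‖x0 - z‖ ^ 2 / 2 with hq
  have hg0 : g x0 = (q : EReal) := by
    simp only [hg, hr, hq]
    norm_cast
  -- coercivity
  set R : ℝ := 2 * ‖u0‖ + 2 * ‖x0 - z‖ + 2 + (|q - r| + ‖u0‖ * ‖x0 - z‖) with hR
  have hRpos : 0 < R := by positivity
  have hco : ∀ w, R < ‖w - z‖ → (q : EReal) < g w := by
    intro w hw
    rcases eq_or_ne (f w) ⊤ with h | h
    · simp only [hg, h, EReal.top_add_coe]
      exact EReal.coe_lt_top q
    · obtain ⟨t, ht⟩ : ∃ t : ℝ, f w = t := ⟨(f w).toReal, (EReal.coe_toReal h (hf.ne_bot w)).symm⟩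
      have h1 := hu0 w
      rw [hr, ht] at h1
      norm_cast at h1
      simp only [hg, ht]
      norm_cast
      have h2 : -(‖u0‖ * (‖w - z‖ + ‖x0 - z‖)) ≤ inner ℝ u0 (w - x0) := by
        have h3 : |inner ℝ u0 (w - x0)| ≤ ‖u0‖ * ‖w - x0‖ := abs_real_inner_le_norm _ _
        have h4 : ‖w - x0‖ ≤ ‖w - z‖ + ‖x0 - z‖ := by
          have : w - x0 = (w - z) - (x0 - z) := by abel
          rw [this]; exact norm_sub_le _ _
        have h5 : ‖u0‖ * ‖w - x0‖ ≤ ‖u0‖ * (‖w - z‖ + ‖x0 - z‖) :=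
          mul_le_mul_of_nonneg_left h4 (norm_nonneg _)
        linarith [neg_abs_le (inner ℝ u0 (w - x0))]
      have h6 : q - r ≤ |q - r| := le_abs_self _
      have ha := norm_nonneg u0
      have hb := norm_nonneg (x0 - z)
      have hab := mul_nonneg ha hb
      have h7 := abs_nonneg (q - r)
      have hw1 : 2 * ‖u0‖ + 2 ≤ ‖w - z‖ := by linarith
      have h8 : |q - r| + ‖u0‖ * ‖x0 - z‖ < ‖w - z‖ := by linarith
      nlinarith [norm_nonneg (w - z)]
  have hlsc : LowerSemicontinuous g := by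
    rw [lowerSemicontinuous_iff_isClosed_preimage]
    intro y
    rcases eq_or_ne y ⊤ with rfl | hy
    · simp
    rcases eq_or_ne y ⊥ with rfl | hyb
    · have : g ⁻¹' Iic ⊥ = ∅ := by
        ext w
        simp only [mem_preimage, mem_Iic, le_bot_iff, mem_empty_iff_false, iff_false, hg]
        rw [EReal.add_eq_bot_iff]
        rintro (h | h)
        · exact hf.ne_bot w h
        · exact EReal.coe_ne_bot _ h
      rw [this]; exact isClosed_empty
    lift y to ℝ using ⟨hy, hyb⟩
    have : g ⁻¹' Iic (y : EReal) =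
        (fun w : H => (w, ((y - ‖w - z‖ ^ 2 / 2 : ℝ) : EReal))) ⁻¹' {p : H × EReal | f p.1 ≤ p.2} := by
      ext w
      simp only [mem_preimage, mem_Iic, mem_ofPred_eq, hg]
      rcases eq_or_ne (f w) ⊤ with h | h
      · rw [h, EReal.top_add_coe]
        constructor
        · intro h'; exact absurd (top_le_iff.1 h') (EReal.coe_ne_top _)
        · intro h'; exact absurd (top_le_iff.1 h') (EReal.coe_ne_top _)
      · obtain ⟨t, ht⟩ : ∃ t : ℝ, f w = t := ⟨(f w).toReal, (EReal.coe_toReal h (hf.ne_bot w)).symm⟩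
        rw [ht]
        norm_cast
        exact le_sub_iff_add_le.symm
    rw [this]
    refine hf.lsc.isClosed_epigraph.preimage ?_
    exact continuous_id.prodMk (continuous_coe_real_ereal.comp (by fun_prop))
  have hx0R : x0 ∈ closedBall z R := by
    rw [mem_closedBall, dist_eq_norm]
    have ha := norm_nonneg u0
    have hb := norm_nonneg (x0 - z)
    have hab := mul_nonneg ha hb
    have h7 := abs_nonneg (q - r)
    linarith
  obtain ⟨y, hy, hmin⟩ := LowerSemicontinuousOn.exists_isMinOn ⟨x0, hx0R⟩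
    (isCompact_closedBall z R) (hlsc.lowerSemicontinuousOn _)
  rw [isMinOn_iff] at hmin
  refine ⟨y, fun w => ?_⟩
  by_cases hw : w ∈ closedBall z R
  · exact hmin w hw
  · rw [mem_closedBall, dist_eq_norm, not_le] at hw
    have h1 := hmin x0 hx0R
    rw [hg0] at h1
    exact h1.trans (hco w hw).le

/-- Fermat rule for the proximal point. -/
theorem prox_subdiff {f : H → EReal} (hf : IsProperLscConvex f) {y z : H}
    (hy : ∀ w, f y + ((‖y - z‖ ^ 2 / 2 : ℝ) : EReal) ≤ f w + ((‖w - z‖ ^ 2 / 2 : ℝ) : EReal)) :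
    z - y ∈ subdiff f y := by
  have hyt : f y ≠ ⊤ := by
    intro h
    obtain ⟨w, hw⟩ := hf.proper
    have h1 := hy w
    rw [h, EReal.top_add_coe] at h1
    have h2 := top_le_iff.1 h1
    obtain ⟨t, ht⟩ : ∃ t : ℝ, f w = t := ⟨(f w).toReal, (EReal.coe_toReal hw (hf.ne_bot w)).symm⟩
    rw [ht, ← EReal.coe_add] at h2
    exact EReal.coe_ne_top _ h2
  obtain ⟨p, hp⟩ : ∃ t : ℝ, f y = t := ⟨(f y).toReal, (EReal.coe_toReal hyt (hf.ne_bot y)).symm⟩
  intro w
  rcases eq_or_ne (f w) ⊤ with h | h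
  · rw [h]; exact le_top
  obtain ⟨q, hq⟩ : ∃ t : ℝ, f w = t := ⟨(f w).toReal, (EReal.coe_toReal h (hf.ne_bot w)).symm⟩
  rw [hp, hq]
  norm_cast
  set a : ℝ := inner ℝ (z - y) (w - y) with ha
  have key : ∀ t : ℝ, 0 < t → t < 1 → p + a ≤ q + t * (‖w - y‖ ^ 2 / 2) := by
    intro t ht0 ht1
    have h1 := hy ((1 - t) • y + t • w)
    have h2 := hf.convex y w (1 - t) t (by linarith) ht0 (by ring)
    rw [hp, hq] at h2
    rw [hp] at h1
    have h3 : f ((1 - t) • y + t • w) + ((‖(1 - t) • y + t • w - z‖ ^ 2 / 2 : ℝ) : EReal) ≤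
        ((1 - t : ℝ) : EReal) * p + (t : EReal) * q +
          ((‖(1 - t) • y + t • w - z‖ ^ 2 / 2 : ℝ) : EReal) := add_le_add_left h2 _
    have h4 := h1.trans h3
    norm_cast at h4
    have h5 : ‖(1 - t) • y + t • w - z‖ ^ 2 = ‖y - z‖ ^ 2 - 2 * t * a + t ^ 2 * ‖w - y‖ ^ 2 := by
      have e : (1 - t) • y + t • w - z = (y - z) + t • (w - y) := by module
      rw [e, norm_add_sq_real, inner_smul_right, norm_smul, ha, ← neg_sub y z, inner_neg_left,
        Real.norm_eq_abs, mul_pow, sq_abs]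
      ring
    rw [h5] at h4
    have h6 : t * (p + a) ≤ t * (q + t * (‖w - y‖ ^ 2 / 2)) := by nlinarith
    exact le_of_mul_le_mul_left h6 ht0
  by_contra hcon
  push Not at hcon
  set M : ℝ := ‖w - y‖ ^ 2 / 2 with hM
  have hM0 : 0 ≤ M := by positivity
  have h1 := key (min (1 / 2) ((p + a - q) / (2 * (M + 1)))) (lt_min (by norm_num)
    (div_pos (by linarith) (by positivity))) (lt_of_le_of_lt (min_le_left _ _) (by norm_num))
  have h2 : min (1 / 2) ((p + a - q) / (2 * (M + 1))) * M ≤ (p + a - q) / (2 * (M + 1)) * (M + 1) := by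
    have h3 : min (1 / 2) ((p + a - q) / (2 * (M + 1))) ≤ (p + a - q) / (2 * (M + 1)) :=
      min_le_right _ _
    have h4 : 0 ≤ (p + a - q) / (2 * (M + 1)) := div_nonneg (by linarith) (by positivity)
    nlinarith
  have h3 : (p + a - q) / (2 * (M + 1)) * (M + 1) = (p + a - q) / 2 := by field_simp
  linarith

/-- Rockafellar's theorem in finite dimensions. -/
theorem subdiff_maximal [FiniteDimensional ℝ H] {f : H → EReal} (hf : IsProperLscConvex f)
    (hne : (domOp (subdiff f)).Nonempty) : IsMaximallyMonotone (subdiff f) := by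
  refine ⟨subdiff_monotone hf, fun B hB hsub x u hu => ?_⟩
  obtain ⟨x0, u0, hu0⟩ := hne
  obtain ⟨y, hy⟩ := exists_prox hf hu0 (x + u)
  have h1 := prox_subdiff hf hy
  have h2 := hB x y u _ hu (hsub y h1)
  have h3 : inner ℝ (u - (x + u - y)) (x - y) = - ‖x - y‖ ^ 2 := by
    have : u - (x + u - y) = -(x - y) := by abel
    rw [this, inner_neg_left, real_inner_self_eq_norm_sq]
  rw [h3] at h2
  have h4 : ‖x - y‖ = 0 := by nlinarith [norm_nonneg (x - y), sq_nonneg ‖x - y‖]
  have h5 : x = y := by rwa [norm_eq_zero, sub_eq_zero] at h4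
  subst h5
  simpa using h1

/-- The inverse of a set-valued map. -/
def invOp (A : H → Set H) : H → Set H := fun u => {x | u ∈ A x}

theorem IsMonotoneOp.inv {A : H → Set H} (hA : IsMonotoneOp A) : IsMonotoneOp (invOp A) := by
  intro u v x y hx hy
  have := hA x y u v hx hy
  rwa [real_inner_comm] at this

theorem IsMaximallyMonotone.inv {A : H → Set H} (hA : IsMaximallyMonotone A) :
    IsMaximallyMonotone (invOp A) := by
  refine ⟨hA.1.inv, fun B hB hsub u x hx => ?_⟩
  exact hA.2 (invOp B) hB.inv (fun z w hw => hsub w hw) x hx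

/-- The Fenchel conjugate. -/
noncomputable def conjF (g : H → EReal) (u : H) : EReal :=
  ⨆ x, (((inner ℝ u x : ℝ) : EReal) - g x)

theorem conj_sub {g : H → EReal} (hg : IsProperLscConvex g) {x u : H} (hu : u ∈ subdiff g x)
    {r : ℝ} (hr : g x = r) : conjF g u = ((inner ℝ u x - r : ℝ) : EReal) := by
  refine le_antisymm (iSup_le fun y => ?_) ?_
  · have h1 := hu y
    rw [hr] at h1
    rcases eq_or_ne (g y) ⊤ with h | h
    · rw [h, EReal.sub_top]; exact bot_le
    · obtain ⟨t, ht⟩ : ∃ t : ℝ, g y = t := ⟨(g y).toReal, (EReal.coe_toReal h (hg.ne_bot y)).symm⟩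
      rw [ht] at h1 ⊢
      norm_cast at h1 ⊢
      rw [inner_sub_right] at h1
      linarith
  · have := le_iSup (fun y => (((inner ℝ u y : ℝ) : EReal) - g y)) x
    refine le_trans (le_of_eq ?_) this
    simp only [hr]
    norm_cast

theorem conj_proper [FiniteDimensional ℝ H] {g : H → EReal} (hg : IsProperLscConvex g)
    (hne : (domOp (subdiff g)).Nonempty) : IsProperLscConvex (conjF g) where
  ne_bot u := by
    obtain ⟨x, hx⟩ := hg.proper
    obtain ⟨t, ht⟩ : ∃ t : ℝ, g x = t := ⟨(g x).toReal, (EReal.coe_toReal hx (hg.ne_bot x)).symm⟩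
    intro h
    have h1 := le_iSup (fun y => (((inner ℝ u y : ℝ) : EReal) - g y)) x
    simp only [ht] at h1
    have h2 : conjF g u = ⨆ y, (((inner ℝ u y : ℝ) : EReal) - g y) := rfl
    rw [← h2, h, ← EReal.coe_sub] at h1
    exact EReal.coe_ne_bot _ (le_bot_iff.1 h1)
  proper := by
    obtain ⟨x, u, hu⟩ := hne
    obtain ⟨r, hr⟩ := real_of_subdiff hg hu
    exact ⟨u, by rw [conj_sub hg hu hr]; exact EReal.coe_ne_top _⟩
  lsc := by
    refine lowerSemicontinuous_iSup fun x => ?_
    refine Continuous.lowerSemicontinuous ?_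
    rcases eq_or_ne (g x) ⊤ with h | h
    · simp only [h, EReal.sub_top]
      exact continuous_const
    · obtain ⟨t, ht⟩ : ∃ t : ℝ, g x = t := ⟨(g x).toReal, (EReal.coe_toReal h (hg.ne_bot x)).symm⟩
      have : (fun u : H => ((inner ℝ u x : ℝ) : EReal) - g x) =
          fun u : H => ((inner ℝ u x - t : ℝ) : EReal) := by
        funext u; rw [ht]; norm_cast
      rw [this]
      exact continuous_coe_real_ereal.comp (by fun_prop)
  convex u v a b ha hb hab := by
    refine iSup_le fun x => ?_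
    rcases eq_or_ne (g x) ⊤ with h | h
    · rw [h, EReal.sub_top]; exact bot_le
    · obtain ⟨t, ht⟩ : ∃ t : ℝ, g x = t := ⟨(g x).toReal, (EReal.coe_toReal h (hg.ne_bot x)).symm⟩
      have h1 : ((inner ℝ u x - t : ℝ) : EReal) ≤ conjF g u := by
        have := le_iSup (fun y => (((inner ℝ u y : ℝ) : EReal) - g y)) x
        simp only [ht] at this
        rw [EReal.coe_sub]; exact this
      have h2 : ((inner ℝ v x - t : ℝ) : EReal) ≤ conjF g v := by
        have := le_iSup (fun y => (((inner ℝ v y : ℝ) : EReal) - g y)) x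
        simp only [ht] at this
        rw [EReal.coe_sub]; exact this
      have ha' : (0 : EReal) ≤ (a : EReal) := by exact_mod_cast ha.le
      have hb' : (0 : EReal) ≤ (b : EReal) := by exact_mod_cast hb.le
      refine le_trans (le_of_eq ?_) (add_le_add (mul_le_mul_of_nonneg_left h1 ha')
        (mul_le_mul_of_nonneg_left h2 hb'))
      rw [ht]
      norm_cast
      rw [inner_add_left, inner_smul_left, inner_smul_left]
      simp only [conj_trivial]
      have : t = (a + b) * t := by rw [hab, one_mul]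
      linarith

theorem conj_subdiff {g : H → EReal} (hg : IsProperLscConvex g) {x u : H} (hu : u ∈ subdiff g x) :
    x ∈ subdiff (conjF g) u := by
  obtain ⟨r, hr⟩ := real_of_subdiff hg hu
  intro v
  rw [conj_sub hg hu hr]
  have := le_iSup (fun y => (((inner ℝ v y : ℝ) : EReal) - g y)) x
  refine le_trans (le_of_eq ?_) this
  simp only [hr]
  norm_cast
  rw [inner_sub_right, real_inner_comm x u, real_inner_comm x v]
  ring

theorem ran_conj [FiniteDimensional ℝ H] {g : H → EReal} (hg : IsProperLscConvex g)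
    (hne : (domOp (subdiff g)).Nonempty) : ranOp (subdiff (conjF g)) = domOp (subdiff g) := by
  have hmax := (subdiff_maximal hg hne).inv
  have h1 : ∀ u, subdiff (conjF g) u ⊆ invOp (subdiff g) u :=
    hmax.2 (subdiff (conjF g)) (subdiff_monotone (conj_proper hg hne))
      (fun u x hx => conj_subdiff hg hx)
  ext x
  constructor
  · rintro ⟨u, hu⟩
    exact ⟨u, h1 u hu⟩
  · rintro ⟨u, hu⟩
    exact ⟨u, conj_subdiff hg hu⟩

end Pool.Agent.H230R3
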